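import Pool.Agent.H57.CM.Targets
import Pool.Agent.H57.LH.Ex

/-! Row TPM of `chm_modules`: types in the structure of a metric space. -/

set_option autoImplicit false

namespace Pool.Agent.H67.CM

open Pool.Agent.H68.BP Pool.Agent.H58.SF Pool.Agent.H53.NR
open Pool.Agent.H53.GC (strOn sigOf)
open Pool.Agent.H57.AR (tp ty Ty)
open Pool.Agent.H57.LH (Hmg tp_strOn)
open Pool.Agent.H57.CM Pool.Agent.H72.CH
open Function

theorem pf_TPM : T_TPM := by
  intro D V J _ _ _ _ d hd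
  refine ⟨fun x y => ⟨fun h => ?_, fun h => ?_⟩, ?_⟩
  · have h1 := (tp_strOn.1 h).2
    intro a b
    have h2 := h1 (d (x a) (x b)) ![a, b]
    exact (h2.1 rfl).symm
  · refine tp_strOn.2 ⟨fun a b => ?_, fun s z => ?_⟩
    · rw [← hd.eq, ← hd.eq, h]
    · show d (x (z 0)) (x (z 1)) = s ↔ d (y (z 0)) (y (z 1)) = s
      rw [h]
  · intro k x 𝕏 hx y hy
    refine ⟨fun a b hab => hx.1 ?_, fun l w => (hx.2 l w).trans ?_⟩
    · rw [← hd.eq, ← hy, hd.eq]
      exact hab
    · show d (x (w _)) (x (w _)) = _ ↔ d (y (w _)) (y (w _)) = _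
      rw [hy]

end Pool.Agent.H67.CM
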